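import Pool.Agent.Helper59.TJ.Perc
import Pool.Agent.Helper99.MS.SubC

set_option autoImplicit false

/-!
# The upper bound for the wall energies without moments: symmetrisation along light T-joins
-/

namespace Pool.Agent.Helper59.UP

open Pool.Agent.Helper60.TJ Pool.Agent.Helper99.TJ Pool.Agent.Helper99.MS Pool.Agent.Helper59.TJ
open scoped symmDiff ENNReal
open MeasureTheory Filter Topology

/-! ### light T-joins in a box -/

theorem GE_congr {K : ℝ} {k : ℕ} {x : Vx} {J J' : Ed → ℝ} (h : ∀ e, |J e| = |J' e|) :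
    J ∈ GE K k x ↔ J' ∈ GE K k x := by
  have key : ∀ {J J' : Ed → ℝ}, (∀ e, |J e| = |J' e|) → J ∈ GE K k x → J' ∈ GE K k x := by
    intro J J' h hJ e he
    have h1 : ∀ e, |tE (sh x J) e| = |tE (sh x J') e| := fun e => h _
    have h2 : Pool.H66.EAM.Rgn K 1 k (tE (sh x J)) = Pool.H66.EAM.Rgn K 1 k (tE (sh x J')) :=
      Pool.H66.EAM.Rgn_congr fun e => by rw [h1]
    rw [← h2] at he
    rw [← h1]
    exact hJ e he
  exact ⟨key h, key fun e => (h e).symm⟩

theorem SmE_congr {K : ℝ} {k L : ℕ} {J J' : Ed → ℝ} (h : ∀ e, |J e| = |J' e|) :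
    J ∈ SmE K k L ↔ J' ∈ SmE K k L := by
  unfold SmE
  simp only [Set.mem_iInter]
  exact forall_congr' fun x => forall_congr' fun _ => GE_congr h

theorem ends_box {L : ℕ} {v : Vx} (hv : v ∈ box L) (d : Dir) :
    pa (edg v d) ∈ box (L + 1) ∧ pb (edg v d) ∈ box (L + 1) := by
  obtain ⟨x, y⟩ := v
  rw [E2.mem_box] at hv ⊢
  rw [E2.mem_box]
  simp only at hv
  fin_cases d <;> simp [edg, pa, pb] <;> omega

/-- the constant of the light T-joins -/
def MM (k : ℕ) : ℕ := (2 * (1 + k) + 1) ^ 2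

/-- the edges of the light T-joins -/
noncomputable def BL (k L : ℕ) : Finset Ed := BE (box (L + 1 + (1 + k)))

theorem exists_light_box {K : ℝ} {k L : ℕ} {J : Ed → ℝ} (hSm : J ∈ SmE K k (L + 1))
    {X : Finset Ed} {S : Finset Vx} (hX : ∀ e ∈ X, ∃ v ∈ box L, ∃ d, edg v d = e)
    (hpar : par (ind X) = fun v => decide (v ∈ S)) (hS : ∀ v ∈ S, Gd K J v) :
    ∃ π ⊆ BL k L, par (ind π) = par (ind X) ∧ (∀ e ∈ π, |J e| ≤ K) ∧
      π.card ≤ (1 + 8 * MM k) * X.card := by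
  refine exists_light hpar hS ?_
  intro e he x hx
  obtain ⟨v, hv, d, rfl⟩ := hX e he
  have h1 : x ∈ box (L + 1) := by
    rcases hx with rfl | rfl
    · exact (ends_box hv d).1
    · exact (ends_box hv d).2
  refine ⟨RS K k x J, ?_, self_mem_RS, card_RS, cl_RS (Set.mem_iInter₂.1 hSm x h1)⟩
  intro u hu
  have h2 := add_mem_box h1 (RS_sub hu)
  rwa [add_sub_cancel] at h2

/-! ### symmetrisation -/

/-- McDiarmid for a part of the edges -/
theorem count_shift {g : Finset Ed → ℝ} {w : Ed → ℝ} (hg : ∀ D e, |g (D ∆ {e}) - g D| ≤ w e)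
    (hb : ∀ D D', IsCyc (D ∆ D') → g D = g D') {Bx π X : Finset Ed} (hπ : π ⊆ Bx)
    (hX : IsCyc (X ∆ π)) {t : ℝ} (ht : 0 ≤ t) :
    (((Bx.powerset.filter fun D => g (D ∆ X) - g D < -t).card : ℕ) : ℝ) ≤
      2 ^ Bx.card * (2 * Real.exp (-(t ^ 2 / (2 * ∑ e ∈ π, w e ^ 2)))) := by
  classical
  set s := Bx.powerset.filter fun D => g (D ∆ X) - g D < -t with hs
  have h1 := Finset.card_eq_sum_card_fiberwise (f := fun D : Finset Ed => D \ π) (s := s)
    (t := (Bx \ π).powerset) (by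
      intro D hD
      have hD' : D ∈ s := hD
      rw [hs, Finset.mem_filter, Finset.mem_powerset] at hD'
      exact Finset.mem_coe.2 (Finset.mem_powerset.2 (Finset.sdiff_subset_sdiff hD'.1 le_rfl)))
  have h2 : ∀ D' ∈ (Bx \ π).powerset, (((s.filter fun D => D \ π = D').card : ℕ) : ℝ) ≤
      2 * 2 ^ π.card * Real.exp (-(t ^ 2 / (2 * ∑ e ∈ π, w e ^ 2))) := by
    intro D' _
    have h3 := mcd_fE (g := fun E => g (D' ∆ E)) (w := w) (fun D e => by
      have := hg (D' ∆ D) e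
      rwa [symmDiff_assoc] at this) π t ht
    refine le_trans (Nat.cast_le.2 (Finset.card_le_card_of_injOn (fun D => D ∩ π) ?_ ?_)) h3
    · intro D hD
      rw [Finset.mem_coe, Finset.mem_filter, hs, Finset.mem_filter] at hD
      obtain ⟨⟨_, hlt⟩, hD'⟩ := hD
      rw [Finset.mem_coe, Finset.mem_filter, Finset.mem_powerset]
      refine ⟨Finset.inter_subset_right, ?_⟩
      have e1 : D' ∆ (D ∩ π) = D := by
        rw [← hD']
        ext e
        simp only [Finset.mem_symmDiff, Finset.mem_sdiff, Finset.mem_inter]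
        tauto
      have e2 : D' ∆ (π \ (D ∩ π)) = D ∆ π := by
        rw [← hD']
        ext e
        simp only [Finset.mem_symmDiff, Finset.mem_sdiff, Finset.mem_inter]
        tauto
      have e3 : g (D ∆ π) = g (D ∆ X) := by
        refine hb _ _ ?_
        have e4 : (D ∆ π) ∆ (D ∆ X) = X ∆ π := by
          rw [symmDiff_comm D π, symmDiff_assoc, symmDiff_symmDiff_cancel_left, symmDiff_comm]
        rw [e4]
        exact hX
      unfold fE
      simp only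
      rw [e1, e2, e3, le_abs]
      right
      linarith
    · intro D hD E hE hDE
      rw [Finset.mem_coe, Finset.mem_filter] at hD hE
      have e1 : D \ π = E \ π := hD.2.trans hE.2.symm
      have e2 : D ∩ π = E ∩ π := hDE
      rw [← Finset.sdiff_union_inter D π, ← Finset.sdiff_union_inter E π, e1, e2]
  have h4 : ((s.card : ℕ) : ℝ) ≤ ∑ _D' ∈ (Bx \ π).powerset,
      2 * 2 ^ π.card * Real.exp (-(t ^ 2 / (2 * ∑ e ∈ π, w e ^ 2))) := by
    rw [h1]
    push_cast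
    exact Finset.sum_le_sum h2
  refine h4.trans (le_of_eq ?_)
  rw [Finset.sum_const, Finset.card_powerset, nsmul_eq_mul]
  have h5 : (Bx \ π).card + π.card = Bx.card := Finset.card_sdiff_add_card_eq_card hπ
  rw [← h5, pow_add]
  push_cast
  ring

/-- averaging over measure preserving maps -/
theorem prob_avg {Ω : Type*} [MeasurableSpace Ω] {P : Measure Ω} [IsProbabilityMeasure P]
    {τ : Finset Ed → Ω → Ω} (hτ : ∀ D, MeasurePreserving (τ D) P P) {R : Set Ω}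
    (hR : MeasurableSet R) [∀ ω, DecidablePred fun D => τ D ω ∈ R] (Bx : Finset Ed) {c : ℝ}
    (hc : ∀ᵐ ω ∂P, (((Bx.powerset.filter fun D => τ D ω ∈ R).card : ℕ) : ℝ) ≤
      2 ^ Bx.card * c) : P R ≤ ENNReal.ofReal c := by
  classical
  have h1 : ∀ D : Finset Ed, P R = ∫⁻ ω, R.indicator 1 (τ D ω) ∂P := by
    intro D
    rw [← lintegral_indicator_one hR]
    conv_lhs => rw [← (hτ D).map_eq]
    rw [lintegral_map (measurable_one.indicator hR) (hτ D).measurable]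
  have h2 : (2 ^ Bx.card : ℝ≥0∞) * P R = ∫⁻ ω, ∑ D ∈ Bx.powerset, R.indicator 1 (τ D ω) ∂P := by
    have h2' : ∫⁻ ω, ∑ D ∈ Bx.powerset, R.indicator (1 : Ω → ℝ≥0∞) (τ D ω) ∂P =
        ∑ D ∈ Bx.powerset, ∫⁻ ω, R.indicator (1 : Ω → ℝ≥0∞) (τ D ω) ∂P :=
      lintegral_finsetSum _ fun D _ => (measurable_one.indicator hR).comp (hτ D).measurable
    rw [h2', ← Finset.sum_congr rfl fun D _ => h1 D, Finset.sum_const, Finset.card_powerset]
    simp
  have h3 : ∫⁻ ω, ∑ D ∈ Bx.powerset, R.indicator (1 : Ω → ℝ≥0∞) (τ D ω) ∂P ≤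
      ∫⁻ _, ENNReal.ofReal (2 ^ Bx.card * c) ∂P := by
    refine lintegral_mono_ae ?_
    filter_upwards [hc] with ω hω
    have h4 : ∑ D ∈ Bx.powerset, R.indicator (1 : Ω → ℝ≥0∞) (τ D ω) =
        (((Bx.powerset.filter fun D => τ D ω ∈ R).card : ℕ) : ℝ≥0∞) := by
      rw [Finset.card_filter]
      push_cast
      refine Finset.sum_congr rfl fun D _ => ?_
      by_cases h : τ D ω ∈ R
      · simp [h]
      · simp [h]
    rw [h4, ← ENNReal.ofReal_natCast]
    exact ENNReal.ofReal_le_ofReal hω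
  rw [lintegral_const, measure_univ, mul_one, ← h2] at h3
  have h6 : ENNReal.ofReal (2 ^ Bx.card * c) = 2 ^ Bx.card * ENNReal.ofReal c := by
    rw [ENNReal.ofReal_mul (by positivity), ENNReal.ofReal_pow (by norm_num)]
    simp
  rw [h6] at h3
  have h7 : (2 ^ Bx.card : ℝ≥0∞) ≠ 0 := by positivity
  have h8 : (2 ^ Bx.card : ℝ≥0∞) ≠ ∞ := by finiteness
  exact (ENNReal.mul_le_mul_iff_right h7 h8).1 h3

/-- the exponential bound for one light T-join -/
theorem exp_light {K : ℝ} (hK : 0 ≤ K) {k L m : ℕ} (hL : 1 ≤ L) {Λ : ℝ} (hΛ : 0 < Λ)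
    (hΛK : K ^ 2 * (1 + 8 * MM k) ≤ Λ ^ 2) {J : Ed → ℝ} (hnz : ∀ e, J e ≠ 0)
    {X π : Finset Ed} (hne : π.Nonempty) (hXc : (X.card : ℝ) ≤ 9 * (2 * L + 1) * √m)
    (hXne : X.Nonempty) (hl : ∀ e ∈ π, |J e| ≤ K) (hc : π.card ≤ (1 + 8 * MM k) * X.card) :
    Real.exp (-(tt L Λ m ^ 2 / (2 * ∑ e ∈ π, |J e| ^ 2))) ≤ ((2 * (L:ℝ) + 1) ^ (6 * m))⁻¹ := by
  have hX0 : 0 < X.card := Finset.card_pos.2 hXne
  refine le_trans ?_ (exp_le hΛ hX0 hXc hL)
  rw [Real.exp_le_exp, neg_le_neg_iff]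
  have h1 : ∑ e ∈ π, |J e| ^ 2 ≤ X.card * Λ ^ 2 := by
    have h2 : ∑ e ∈ π, |J e| ^ 2 ≤ π.card * K ^ 2 := by
      rw [← nsmul_eq_mul]
      refine Finset.sum_le_card_nsmul _ _ _ fun e he => ?_
      exact pow_le_pow_left₀ (abs_nonneg _) (hl e he) 2
    have h3 : (π.card : ℝ) ≤ (1 + 8 * MM k) * X.card := by exact_mod_cast hc
    calc ∑ e ∈ π, |J e| ^ 2 ≤ π.card * K ^ 2 := h2
      _ ≤ ((1 + 8 * MM k) * X.card) * K ^ 2 := mul_le_mul_of_nonneg_right h3 (by positivity)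
      _ = X.card * (K ^ 2 * (1 + 8 * MM k)) := by ring
      _ ≤ _ := mul_le_mul_of_nonneg_left hΛK (by positivity)
  have h2 : 0 < ∑ e ∈ π, |J e| ^ 2 := by
    refine Finset.sum_pos (fun e _ => ?_) hne
    have : 0 < |J e| := abs_pos.2 (hnz e)
    positivity
  exact div_le_div_of_nonneg_left (by positivity) (by positivity) (by linarith)

theorem nonempty_of_par {X : Finset Ed} {S : Finset Vx} (hS : S.Nonempty)
    (hpar : par (ind X) = fun v => decide (v ∈ S)) : X.Nonempty := by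
  by_contra hne
  rw [Finset.not_nonempty_iff_eq_empty] at hne
  obtain ⟨v, hv⟩ := hS
  have h3 := congrFun hpar v
  rw [hne, par_empty] at h3
  simp [hv] at h3

/-- the T-joins of the box -/
theorem exists_X (L : ℕ) : ∃ X : ℕ → Finset Vx → Finset Ed, ∀ m S, S.card = 2 * m → S ⊆ box L →
    ((X m S).card : ℝ) ≤ 9 * (2 * L + 1) * √m ∧
      par (ind (X m S)) = (fun v => decide (v ∈ S)) ∧
      ∀ e ∈ X m S, ∃ v ∈ box L, ∃ d, edg v d = e := by
  have hex : ∀ (m : ℕ) (S : Finset Vx), ∃ X : Finset Ed, S.card = 2 * m → S ⊆ box L →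
      (X.card : ℝ) ≤ 9 * (2 * L + 1) * √m ∧
      par (ind X) = (fun v => decide (v ∈ S)) ∧ ∀ e ∈ X, ∃ v ∈ box L, ∃ d, edg v d = e := by
    intro m S
    by_cases h : S.card = 2 * m ∧ S ⊆ box L
    · obtain ⟨X, h1, h2, h3⟩ := TJ99.exists_join_box m S h.1 h.2
      refine ⟨X, fun _ _ => ⟨h1, h2, ?_⟩⟩
      intro e he
      obtain ⟨v, d, h4, h5, _⟩ := h3 e he
      exact ⟨v, h5, d, h4⟩
    · exact ⟨∅, fun h1 h2 => absurd ⟨h1, h2⟩ h⟩
  choose X hX using hex
  exact ⟨X, hX⟩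

end Pool.Agent.Helper59.UP
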