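import Pool.Agent.Helper59.UP.A

set_option autoImplicit false

/-!
# The union bound over the boundaries made of good plaquettes
-/

namespace Pool.Agent.Helper59.UP

open Pool.Agent.Helper60.TJ Pool.Agent.Helper99.TJ Pool.Agent.Helper99.MS Pool.Agent.Helper59.TJ
open scoped symmDiff ENNReal
open MeasureTheory Filter Topology

/-- sign flips for which few flips lead into the low event of a boundary -/
structure CntS (μ : Measure ℝ) {Ω : Type*} [MeasurableSpace Ω] (P : Measure Ω) (J : Ω → Ed → ℝ)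
    (R : Finset Ed → ℝ → Set Ω) (c : ℕ) : Prop where
  mJ : Measurable J
  law : P.map J = PP μ
  nz : ∀ᵐ ω ∂P, ∀ e, J ω e ≠ 0
  mR : ∀ X t, MeasurableSet (R X t)
  tog : ∃ τ : Finset Ed → Ω → Ω, (∀ D, MeasurePreserving (τ D) P P) ∧
    (∀ᵐ ω ∂P, ∀ D e, |J (τ D ω) e| = |J ω e|) ∧
      ∀ᵐ ω ∂P, ∀ Bx π X : Finset Ed, π ⊆ Bx → IsCyc (X ∆ π) → ∀ t : ℝ, 0 ≤ t →
        (({D : Finset Ed | D ⊆ Bx ∧ τ D ω ∈ R X t}.ncard : ℕ) : ℝ) ≤
          2 ^ Bx.card * (2 * c * Real.exp (-(t ^ 2 / (2 * ∑ e ∈ π, |J ω e| ^ 2))))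

variable {μ : Measure ℝ} {Ω : Type*} [MeasurableSpace Ω] {P : Measure Ω} {J : Ω → Ed → ℝ}
  {R : Finset Ed → ℝ → Set Ω} {c : ℕ}

/-- the bad event of one boundary `S` -/
def BadG (K : ℝ) (k L : ℕ) (J : Ω → Ed → ℝ) (S : Finset Vx) (R' : Set Ω) : Set Ω :=
  {ω | J ω ∈ SmE K k (L + 1) ∧ (∀ v ∈ S, Gd K (J ω) v) ∧ ω ∈ R'}

omit [MeasurableSpace Ω] in
theorem badG_eq (K : ℝ) (k L : ℕ) (J : Ω → Ed → ℝ) (S : Finset Vx) (R' : Set Ω) :
    BadG K k L J S R' = (J ⁻¹' SmE K k (L + 1) ∩ ⋂ v ∈ S, J ⁻¹' {J | Gd K J v}) ∩ R' := by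
  ext ω
  simp only [BadG, Set.mem_ofPred_eq, Set.mem_inter_iff, Set.mem_preimage, Set.mem_iInter]
  tauto

theorem measurableSet_BadG (hJ : Measurable J) (K : ℝ) (k L : ℕ) (S : Finset Vx) {R' : Set Ω}
    (hR : MeasurableSet R') : MeasurableSet (BadG K k L J S R') := by
  rw [badG_eq]
  refine MeasurableSet.inter (MeasurableSet.inter (hJ (measurableSet_SmE K k _)) ?_) hR
  exact Finset.measurableSet_biInter _ fun v _ => hJ (measurableSet_Gd K v)

theorem CntS.prob_one [IsProbabilityMeasure P] (h : CntS μ P J R c) {K : ℝ} (hK : 0 ≤ K)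
    {k L m : ℕ} (hL : 1 ≤ L) {Λ : ℝ} (hΛ : 0 < Λ) (hΛK : K ^ 2 * (1 + 8 * MM k) ≤ Λ ^ 2)
    {S : Finset Vx} (hS : S.Nonempty) {X : Finset Ed} (hX1 : (X.card : ℝ) ≤ 9 * (2 * L + 1) * √m)
    (hX2 : par (ind X) = fun v => decide (v ∈ S))
    (hX3 : ∀ e ∈ X, ∃ v ∈ box L, ∃ d, edg v d = e) :
    P (BadG K k L J S (R X (tt L Λ m))) ≤
      ENNReal.ofReal (2 * c * ((2 * (L:ℝ) + 1) ^ (6 * m))⁻¹) := by
  classical
  obtain ⟨τ, hτ, ha, hb⟩ := h.tog
  refine prob_avg hτ (measurableSet_BadG h.mJ K k L S (h.mR _ _)) (BL k L) ?_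
  filter_upwards [ha, hb, h.nz] with ω a b nz
  by_cases hgood : J ω ∈ SmE K k (L + 1) ∧ ∀ v ∈ S, Gd K (J ω) v
  · obtain ⟨π, hπ1, hπ2, hπ3, hπ4⟩ := exists_light_box hgood.1 hX3 hX2 hgood.2
    have hne : π.Nonempty := nonempty_of_par hS (hπ2.trans hX2)
    have h1 := b (BL k L) π X hπ1 (isCyc_symmDiff_of_eq hπ2.symm) (tt L Λ m) (tt_nonneg L hΛ.le m)
    have h2 : {D : Finset Ed | D ⊆ BL k L ∧ τ D ω ∈ R X (tt L Λ m)} =
        ↑((BL k L).powerset.filter fun D => τ D ω ∈ R X (tt L Λ m)) := by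
      ext D
      simp
    rw [h2, Set.ncard_coe_finset] at h1
    have h3 : (((BL k L).powerset.filter fun D => τ D ω ∈ BadG K k L J S (R X (tt L Λ m))).card : ℝ) ≤
        (((BL k L).powerset.filter fun D => τ D ω ∈ R X (tt L Λ m)).card : ℝ) := by
      refine Nat.cast_le.2 (Finset.card_le_card fun D hD => ?_)
      rw [Finset.mem_filter] at hD ⊢
      exact ⟨hD.1, hD.2.2.2⟩
    refine h3.trans (h1.trans ?_)
    refine mul_le_mul_of_nonneg_left ?_ (by positivity)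
    refine mul_le_mul_of_nonneg_left ?_ (by positivity)
    exact exp_light hK hL hΛ hΛK nz hne hX1 (nonempty_of_par hS hX2) hπ3 hπ4
  · have h1 : ((BL k L).powerset.filter fun D => τ D ω ∈ BadG K k L J S (R X (tt L Λ m))) = ∅ := by
      rw [Finset.filter_eq_empty_iff]
      intro D _ hD
      refine hgood ⟨(SmE_congr (a D)).1 hD.1, fun v hv => (gd_congr (a D)).1 (hD.2.1 v hv)⟩
    rw [h1, Finset.card_empty]
    simp only [Nat.cast_zero]
    positivity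

/-- **Union bound.** -/
theorem CntS.exists_bad [IsProbabilityMeasure P] [IsProbabilityMeasure μ] (h : CntS μ P J R c)
    {K : ℝ} (hK : 0 ≤ K) (hp : μ {x | K < |x|} ≤ ENNReal.ofReal (1 / 16))
    {k L : ℕ} (hL : 1 ≤ L) {Λ : ℝ} (hΛ : 0 < Λ) (hΛK : K ^ 2 * (1 + 8 * MM k) ≤ Λ ^ 2) :
    ∃ X : ℕ → Finset Vx → Finset Ed,
      (∀ m S, S.card = 2 * m → S ⊆ box L → par (ind (X m S)) = fun v => decide (v ∈ S)) ∧
      ∃ B : Set Ω, P B ≤ ENNReal.ofReal (4 * c / (2 * L + 1) ^ 2 +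
          (2 * (L + 1 : ℕ) + 1) ^ 2 * (8 * (1 / 4) ^ (k + 1))) ∧
        ∀ ω, ω ∉ B → ∀ m : ℕ, 1 ≤ m → ∀ S : Finset Vx, S ⊆ box L → S.card = 2 * m →
          (∀ v ∈ S, Gd K (J ω) v) → ω ∉ R (X m S) (tt L Λ m) := by
  classical
  obtain ⟨X, hX⟩ := exists_X L
  set B1 : Set Ω := ⋃ m ∈ Finset.Icc 1 (box L).card, ⋃ S ∈ (box L).powersetCard (2 * m),
      BadG K k L J S (R (X m S) (tt L Λ m)) with hB1
  set B2 : Set Ω := J ⁻¹' (SmE K k (L + 1))ᶜ with hB2
  have h1 : ∀ m ∈ Finset.Icc 1 (box L).card,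
      P (⋃ S ∈ (box L).powersetCard (2 * m), BadG K k L J S (R (X m S) (tt L Λ m))) ≤
      ENNReal.ofReal (((((box L).powersetCard (2 * m)).card : ℕ) : ℝ) *
        (2 * c * ((2 * (L:ℝ) + 1) ^ (6 * m))⁻¹)) := by
    intro m hm
    rw [Finset.mem_Icc] at hm
    refine (measure_biUnion_finset_le _ _).trans ?_
    have h2 : ∀ S ∈ (box L).powersetCard (2 * m), P (BadG K k L J S (R (X m S) (tt L Λ m))) ≤
        ENNReal.ofReal (2 * c * ((2 * (L:ℝ) + 1) ^ (6 * m))⁻¹) := by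
      intro S hS
      obtain ⟨hS1, hS2⟩ := Finset.mem_powersetCard.1 hS
      obtain ⟨hX1, hX2, hX3⟩ := hX m S hS2 hS1
      refine h.prob_one hK hL hΛ hΛK ?_ hX1 hX2 hX3
      rw [← Finset.card_pos]; omega
    refine (Finset.sum_le_sum h2).trans ?_
    rw [Finset.sum_const, nsmul_eq_mul, ENNReal.ofReal_mul (Nat.cast_nonneg _),
      ENNReal.ofReal_natCast]
  have hP1 : P B1 ≤ ENNReal.ofReal (4 * c / (2 * L + 1) ^ 2) := by
    rw [hB1]
    refine (measure_biUnion_finset_le _ _).trans ((Finset.sum_le_sum h1).trans ?_)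
    rw [← ENNReal.ofReal_sum_of_nonneg fun m _ => by positivity]
    exact ENNReal.ofReal_le_ofReal (geom_bound L _ c hL)
  have hP2 : P B2 ≤ ENNReal.ofReal ((2 * (L + 1 : ℕ) + 1) ^ 2 * (8 * (1 / 4) ^ (k + 1))) := by
    have h2 := prob_SmE hp k (L + 1)
    rw [← h.law] at h2
    exact (Measure.le_map_apply h.mJ.aemeasurable _).trans h2
  refine ⟨X, fun m S h2 h3 => (hX m S h2 h3).2.1, B1 ∪ B2, ?_, ?_⟩
  · refine (measure_union_le _ _).trans ?_
    rw [ENNReal.ofReal_add (by positivity) (by positivity)]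
    exact add_le_add hP1 hP2
  · intro ω hω m hm S hS hcard hgood hlow
    rw [Set.mem_union, not_or] at hω
    apply hω.1
    rw [hB1]
    simp only [Set.mem_iUnion]
    refine ⟨m, Finset.mem_Icc.2 ⟨hm, ?_⟩, S, Finset.mem_powersetCard.2 ⟨hS, hcard⟩, ?_, hgood, hlow⟩
    · have := Finset.card_le_card hS
      omega
    · by_contra hcon
      exact hω.2 hcon

/-! ### the two instances -/

/-- no low energies in the box `L` for boundaries made of good plaquettes -/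
def LG (K : ℝ) (L : ℕ) (Λ : ℝ) (J : Ed → ℝ) (U : Ed → Bool) : Prop :=
  ∀ m : ℕ, 1 ≤ m → ∀ S : Finset Vx, S ⊆ box L → S.card = 2 * m → (∀ v ∈ S, Gd K J v) →
    ∀ Y : Finset Ed, par (ind Y) = (fun v => decide (v ∈ S)) → -tt L Λ m ≤ en (wt J) U Y

theorem measurable_LG (K : ℝ) (L : ℕ) (Λ : ℝ) :
    Measurable fun q : (Ed → ℝ) × (Ed → Bool) => LG K L Λ q.1 q.2 := by
  unfold LG
  refine Measurable.forall fun m => Measurable.imp measurable_const (Measurable.forall fun S =>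
    Measurable.imp measurable_const (Measurable.imp measurable_const (Measurable.imp ?_
      (Measurable.forall fun Y => Measurable.imp measurable_const ?_))))
  · refine Measurable.forall fun v => Measurable.imp measurable_const ?_
    exact measurableSet_setOf.1 (measurable_fst (measurableSet_Gd K v))
  · exact measurableSet_setOf.1 (measurableSet_le measurable_const (continuous_en Y).measurable)

/-- the boundary energies with toggles -/
theorem cntS_EnS {U : Ω → Ed → Bool} {h : Ω → Finset Ed → ℝ} (hE : EnS μ P J U h) :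
    CntS μ P J (fun X t => {ω | h ω X < -t}) 1 := by
  classical
  choose τ hτ1 hτ2 hτ3 using hE.tog
  refine ⟨hE.mJ, hE.law, hE.nz, fun X t => measurableSet_lt (hE.mh X) measurable_const,
    τ, hτ1, ae_all_iff.2 hτ2, ?_⟩
  filter_upwards [ae_all_iff.2 hτ3, hE.step, hE.bdry] with ω a3 a4 a5
  intro Bx π X hπ hX t ht
  have h1 : {D : Finset Ed | D ⊆ Bx ∧ h (τ D ω) X < -t} =
      ↑(Bx.powerset.filter fun D => h ω (D ∆ X) - h ω D < -t) := by
    ext D
    simp only [Set.mem_ofPred_eq, Finset.coe_filter, Finset.mem_powerset, a3 D X]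
  show (({D : Finset Ed | D ⊆ Bx ∧ h (τ D ω) X < -t}.ncard : ℕ) : ℝ) ≤ _
  rw [h1, Set.ncard_coe_finset, Nat.cast_one, mul_one]
  exact count_shift a4 a5 hπ hX ht

theorem EnS_bad [IsProbabilityMeasure P] [IsProbabilityMeasure μ] {U : Ω → Ed → Bool}
    {h : Ω → Finset Ed → ℝ} (hE : EnS μ P J U h) {K : ℝ} (hK : 0 ≤ K)
    (hp : μ {x | K < |x|} ≤ ENNReal.ofReal (1 / 16)) {k L : ℕ} (hL : 1 ≤ L) {Λ : ℝ} (hΛ : 0 < Λ)
    (hΛK : K ^ 2 * (1 + 8 * MM k) ≤ Λ ^ 2) :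
    P {ω | ¬ LG K L Λ (J ω) (U ω)} ≤ ENNReal.ofReal (4 / (2 * L + 1) ^ 2 +
      (2 * (L + 1 : ℕ) + 1) ^ 2 * (8 * (1 / 4) ^ (k + 1))) := by
  obtain ⟨X, hX, B, hB, hB'⟩ := (cntS_EnS hE).exists_bad hK hp hL hΛ hΛK
  rw [Nat.cast_one, mul_one] at hB
  refine le_trans (measure_mono_ae ?_) hB
  filter_upwards [hE.bdry, hE.le] with ω hb hle hω
  by_contra hcon
  refine hω fun m hm S hS hcard hgood Y hY => ?_
  have h1 : ¬ h ω (X m S) < -tt L Λ m := hB' ω hcon m hm S hS hcard hgood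
  have h2 : h ω (X m S) = h ω Y := hb _ _ (isCyc_symmDiff_of_eq (by rw [hY, hX m S hcard hS]))
  rw [h2, not_lt] at h1
  exact h1.trans (hle Y)

/-- finitely many ground states -/
theorem cntS_GJ {μ : Measure ℝ} [IsProbabilityMeasure μ] (hsym : μ.map (fun x => -x) = μ)
    {c : ℕ} (hnice : ∀ᵐ J ∂(PP μ), ∀ D : Finset Ed, Nice c (flp (ind D) J)) :
    CntS μ (PP μ) (fun J => J) (fun X t => LowW ∅ 0 X t) c := by
  classical
  have h00 : ∀ J : Ed → ℝ, flp (ind ∅) J = J := fun J => by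
    funext e; simp [flp, ind]
  have hnice0 : ∀ᵐ J ∂(PP μ), Nice c J := by
    filter_upwards [hnice] with J hJ
    have := hJ ∅
    rwa [h00] at this
  refine ⟨measurable_id, Measure.map_id, ?_, fun X t => measurableSet_LowW ∅ 0 X t,
    fun D => flp (ind D), fun D => ⟨Pool.Agent.Helper99.TJ.measurable_flp _, map_flp hsym _⟩, ?_, ?_⟩
  · filter_upwards [hnice0] with J hJ using hJ.nz
  · exact Eventually.of_forall fun J D e => congrFun (Pool.Agent.Helper99.TJ.wt_flp (ind D) J) e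
  · filter_upwards [hnice, hnice0] with J hJ hJ0
    intro Bx π X hπ hX t ht
    have hfin := hJ0.fin
    have hsub : {D : Finset Ed | D ⊆ Bx ∧ flp (ind D) J ∈ LowW ∅ 0 X t} ⊆
        ↑(hfin.toFinset.biUnion fun U =>
          Bx.powerset.filter fun D => hh (wt J) U (D ∆ X) - hh (wt J) U D < -t) := by
      rintro D ⟨hD, _, _, U', hU', Y, hY1, hY2⟩
      rw [Pool.Agent.Helper99.TJ.wt_flp] at hY2
      obtain ⟨U, hU, hsub⟩ := exists_source hJ0.nz (hJ D).ib hU'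
      have hL : LM (wt J) U := LM.of_mem hU
      have h1 := hsub Y
      have h2 : hh (wt J) U (D ∆ Y) = hh (wt J) U (D ∆ X) := by
        refine hL.hh_congr ?_
        rw [symmDiff_comm D Y, symmDiff_assoc, symmDiff_symmDiff_cancel_left]
        exact hY1
      rw [h2] at h1
      rw [Finset.mem_coe, Finset.mem_biUnion]
      refine ⟨U, hfin.mem_toFinset.2 hU, Finset.mem_filter.2 ⟨Finset.mem_powerset.2 hD, ?_⟩⟩
      linarith
    have h1 := Set.ncard_le_ncard hsub (Finset.finite_toSet _)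
    rw [Set.ncard_coe_finset] at h1
    have h2 : ((hfin.toFinset.biUnion fun U => Bx.powerset.filter fun D =>
        hh (wt J) U (D ∆ X) - hh (wt J) U D < -t).card : ℝ) ≤ ∑ U ∈ hfin.toFinset,
          (2 ^ Bx.card * (2 * Real.exp (-(t ^ 2 / (2 * ∑ e ∈ π, |J e| ^ 2))))) := by
      refine le_trans (Nat.cast_le.2 Finset.card_biUnion_le) ?_
      push_cast
      refine Finset.sum_le_sum fun U hU => ?_
      have hL : LM (wt J) U := LM.of_mem (hfin.mem_toFinset.1 hU)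
      exact count_shift (w := fun e => |J e|) (fun D e => hL.hh_step D e)
        (fun D D' hD => hL.hh_congr hD) hπ hX ht
    rw [Finset.sum_const, nsmul_eq_mul] at h2
    have h3 : ((hfin.toFinset.card : ℕ) : ℝ) ≤ c := by
      rw [← Set.ncard_eq_toFinset_card _ hfin]
      exact_mod_cast hJ0.card.le
    calc (({D : Finset Ed | D ⊆ Bx ∧ flp (ind D) J ∈ LowW ∅ 0 X t}).ncard : ℝ) ≤ _ := by
          exact_mod_cast h1
      _ ≤ _ := h2
      _ ≤ c * (2 ^ Bx.card * (2 * Real.exp (-(t ^ 2 / (2 * ∑ e ∈ π, |J e| ^ 2))))) :=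
          mul_le_mul_of_nonneg_right h3 (by positivity)
      _ = _ := by ring

theorem GJ_bad {μ : Measure ℝ} [IsProbabilityMeasure μ] (hsym : μ.map (fun x => -x) = μ)
    {c : ℕ} (hnice : ∀ᵐ J ∂(PP μ), ∀ D : Finset Ed, Nice c (flp (ind D) J)) {K : ℝ} (hK : 0 ≤ K)
    (hp : μ {x | K < |x|} ≤ ENNReal.ofReal (1 / 16)) {k L : ℕ} (hL : 1 ≤ L) {Λ : ℝ} (hΛ : 0 < Λ)
    (hΛK : K ^ 2 * (1 + 8 * MM k) ≤ Λ ^ 2) :
    PP μ {J | (∀ e, J e ≠ 0) ∧ ∃ U ∈ GJ J, ¬ LG K L Λ J U} ≤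
      ENNReal.ofReal (4 * c / (2 * L + 1) ^ 2 +
        (2 * (L + 1 : ℕ) + 1) ^ 2 * (8 * (1 / 4) ^ (k + 1))) := by
  obtain ⟨X, hX, B, hB, hB'⟩ := (cntS_GJ hsym hnice).exists_bad hK hp hL hΛ hΛK
  refine le_trans (measure_mono ?_) hB
  rintro J ⟨hnz, U, hU, hbad⟩
  by_contra hcon
  refine hbad fun m hm S hS hcard hgood Y hY => ?_
  by_contra hlow
  refine hB' J hcon m hm S hS hcard hgood ⟨hnz, fun e he => absurd he (Finset.notMem_empty e), U, hU,
    Y, isCyc_symmDiff_of_eq (by rw [hY, hX m S hcard hS]), not_le.1 hlow⟩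

end Pool.Agent.Helper59.UP
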