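import Pool.Agent.Helper59.UP.B

set_option autoImplicit false

/-!
# Counting and averaging over the starting points with good end points
-/

namespace Pool.Agent.Helper59.UP

open Pool.Agent.Helper60.TJ Pool.Agent.Helper99.TJ Pool.Agent.Helper99.MS Pool.Agent.Helper59.TJ
open scoped symmDiff ENNReal
open MeasureTheory Filter Topology

/-! ### counting -/

theorem count_gen2 {p : XX} (hdeg : Deg2 (wl p)) (hac : Ac (wl p))
    {U₁ : Ed → Bool} (hU : ∀ C : Finset Ed, IsCyc C → 0 ≤ en (wt p.1) U₁ C) {K : ℝ} {n m : ℕ}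
    (hm : 1 ≤ m) (hmn : m ≤ n) {Λ lam : ℝ} (hΛ : 0 < Λ) (hlam : 0 < lam)
    (hgood : LG K (2 * n) Λ p.1 U₁) (Z : Finset DE)
    (hZ : ∀ z ∈ Z, z.1 ∈ box n ∧ On (wl p) z ∧ en (wt p.1) U₁ (sg' (wl p) m z) ≤ -lam ∧
      Gd K p.1 z.1 ∧ Gd K p.1 (z.1 + pos (yz p z) m)) :
    (Z.card : ℝ) ≤ 4 * m * NB (2 * n) Λ lam := by
  classical
  obtain ⟨Z', hsub, hdis, hcard⟩ := exists_disjoint hdeg hm Z fun z hz => (hZ z hz).2.1
  have h4 : (Z.card : ℝ) ≤ 4 * m * Z'.card := by exact_mod_cast hcard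
  refine h4.trans ?_
  refine mul_le_mul_of_nonneg_left ?_ (by positivity)
  rcases Nat.eq_zero_or_pos Z'.card with h0 | hpos
  · rw [h0]; simp only [Nat.cast_zero]; exact NB_nonneg _
  obtain ⟨S, hS, m', hm', hSc, hpar⟩ := exists_bdry Z' (sg' (wl p) m) (fun z => z.1)
    (fun z => z.1 + pos (yz p z) m) hdis
    (fun z hz => par_sg' hdeg hac (hZ z (hsub hz)).2.1 m)
    (B := (box (2 * n)).filter fun v => Gd K p.1 v)
    (fun z hz => Finset.mem_filter.2 ⟨box_mono (by omega) (hZ z (hsub hz)).1,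
      (hZ z (hsub hz)).2.2.2.1⟩)
    (fun z hz => Finset.mem_filter.2 ⟨box_mono (by omega)
      (add_mem_box (hZ z (hsub hz)).1 (pos_mem_box (yz p z) m)), (hZ z (hsub hz)).2.2.2.2⟩)
  set Y := Z'.biUnion (sg' (wl p) m) with hY
  have hen : en (wt p.1) U₁ Y ≤ -(Z'.card * lam) := by
    rw [hY, en_biUnion hdis]
    have := Finset.sum_le_card_nsmul Z' (fun z => en (wt p.1) U₁ (sg' (wl p) m z)) (-lam)
      (fun z hz => (hZ z (hsub hz)).2.2.1)
    rw [nsmul_eq_mul] at this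
    linarith
  have hZpos : (0:ℝ) < Z'.card := by exact_mod_cast hpos
  rcases Nat.eq_zero_or_pos m' with h0 | hm'pos
  · exfalso
    rw [h0, mul_zero, Finset.card_eq_zero] at hSc
    rw [hSc] at hpar
    have hcyc : IsCyc Y := by
      rw [isCyc_iff, hpar]
      funext v; simp
    have h5 := hU Y hcyc
    have : 0 < Z'.card * lam := by positivity
    linarith
  · refine arith hΛ hlam hpos hm' ?_
    have h6 := hgood m' hm'pos S (fun v hv => (Finset.mem_filter.1 (hS hv)).1) hSc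
      (fun v hv => (Finset.mem_filter.1 (hS hv)).2) Y hpar
    linarith

/-- starting points with large energy after `m` steps and good end points -/
def AA (K : ℝ) (m : ℕ) (lam : ℝ) : Set YY :=
  {y | (Gd K y.1.1 0 ∧ Gd K y.1.1 (pos y m)) ∧ lam ≤ |Vn m y|}

open Classical in
/-- starting points in the box which are in `A` -/
noncomputable def HA (p : XX) (n : ℕ) (A : Set YY) : Finset DE :=
  (box n ×ˢ (Finset.univ : Finset Dir)).filter fun z => On (wl p) z ∧ yz p z ∈ A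

theorem count_abs2 {p : XX} (hdeg : Deg2 (wl p)) (hac : Ac (wl p))
    (hU : ∀ C : Finset Ed, IsCyc C → 0 ≤ en (wt p.1) p.2.1 C)
    (hU' : ∀ C : Finset Ed, IsCyc C → 0 ≤ en (wt p.1) p.2.2 C)
    {K : ℝ} {n m : ℕ} (hmn : m ≤ n) {Λ lam : ℝ}
    (hΛ : 0 < Λ) (hlam : 0 < lam) (hgood : LG K (2 * n) Λ p.1 p.2.1)
    (hgood' : LG K (2 * n) Λ p.1 p.2.2) :
    ((HA p n (AA K m lam)).card : ℝ) ≤ 8 * n * NB (2 * n) Λ lam := by
  classical
  rcases Nat.eq_zero_or_pos m with rfl | hm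
  · have : HA p n (AA K 0 lam) = ∅ := by
      unfold HA
      rw [Finset.filter_eq_empty_iff]
      rintro z _ ⟨_, _, h⟩
      simp only [Vn, Finset.range_zero, Finset.sum_empty, abs_zero] at h
      linarith
    rw [this]
    simp only [Finset.card_empty, Nat.cast_zero]
    have := NB_nonneg (2 * n) (Λ := Λ) (lam := lam)
    positivity
  set Z1 := (HA p n (AA K m lam)).filter fun z => Vn m (yz p z) ≤ -lam with hZ1
  set Z2 := (HA p n (AA K m lam)).filter fun z => ¬ Vn m (yz p z) ≤ -lam with hZ2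
  have hsplit : Z1.card + Z2.card = (HA p n (AA K m lam)).card :=
    Finset.card_filter_add_card_filter_not _
  have hg : ∀ z : DE, yz p z ∈ AA K m lam → Gd K p.1 z.1 ∧ Gd K p.1 (z.1 + pos (yz p z) m) := by
    rintro z ⟨⟨h1, h2⟩, _⟩
    have e1 : (yz p z).1.1 = sh z.1 p.1 := rfl
    rw [e1, gd_sh] at h1 h2
    rw [zero_add] at h1
    rw [add_comm] at h2
    exact ⟨h1, h2⟩
  have hb1 : (Z1.card : ℝ) ≤ 4 * m * NB (2 * n) Λ lam := by
    refine count_gen2 hdeg hac hU hm hmn hΛ hlam hgood Z1 ?_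
    intro z hz
    rw [hZ1, Finset.mem_filter, HA, Finset.mem_filter, Finset.mem_product] at hz
    obtain ⟨⟨⟨h1, _⟩, h2, h4⟩, h3⟩ := hz
    exact ⟨h1, h2, by rw [en_sg' hdeg hac h2]; exact h3, hg z h4⟩
  have hb2 : (Z2.card : ℝ) ≤ 4 * m * NB (2 * n) Λ lam := by
    refine count_gen2 hdeg hac hU' hm hmn hΛ hlam hgood' Z2 ?_
    intro z hz
    rw [hZ2, Finset.mem_filter, HA, Finset.mem_filter, Finset.mem_product] at hz
    obtain ⟨⟨⟨h1, _⟩, h2, h4⟩, h3⟩ := hz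
    refine ⟨h1, h2, ?_, hg z h4⟩
    have h5 : en (wt p.1) p.2.2 (sg' (wl p) m z) = - en (wt p.1) p.2.1 (sg' (wl p) m z) := by
      apply en_wall
      intro e he
      unfold sg' at he
      obtain ⟨i, _, rfl⟩ := Finset.mem_image.1 he
      exact on_iter hdeg h2 i
    rw [h5, en_sg' hdeg hac h2]
    push Not at h3
    have h4' : lam ≤ |Vn m (yz p z)| := h4.2
    rcases abs_cases (Vn m (yz p z)) with ⟨h6, _⟩ | ⟨h6, _⟩ <;> linarith
  have hNB := NB_nonneg (2 * n) (Λ := Λ) (lam := lam)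
  have hmn' : (m:ℝ) ≤ n := by exact_mod_cast hmn
  calc ((HA p n (AA K m lam)).card : ℝ) = Z1.card + Z2.card := by exact_mod_cast hsplit.symm
    _ ≤ 8 * m * NB (2 * n) Λ lam := by linarith
    _ ≤ 8 * n * NB (2 * n) Λ lam := by
      refine mul_le_mul_of_nonneg_right ?_ hNB
      linarith

/-! ### averaging -/

theorem measurableSet_AA (K : ℝ) (m : ℕ) (lam : ℝ) : MeasurableSet (AA K m lam) := by
  have e1 : AA K m lam = ({y : YY | Gd K y.1.1 0} ∩ Th^[m] ⁻¹' {y : YY | Gd K y.1.1 0}) ∩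
      {y | lam ≤ |Vn m y|} := by
    ext y
    have h1 : Gd K (Th^[m] y).1.1 0 ↔ Gd K y.1.1 (pos y m) := by
      rw [th_iterate_fst]
      show Gd K (sh (pos y m) y.1.1) 0 ↔ _
      rw [gd_sh, zero_add]
    simp only [AA, Set.mem_ofPred_eq, Set.mem_inter_iff, Set.mem_preimage, h1]
  have h2 : MeasurableSet {y : YY | Gd K y.1.1 0} :=
    (measurable_fst.comp measurable_fst) (measurableSet_Gd K 0)
  rw [e1]
  exact (h2.inter ((measurable_Th.iterate m) h2)).inter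
    (measurableSet_le measurable_const (measurable_Vn m).abs)

theorem measurableSet_HAz {A : Set YY} (hA : MeasurableSet A) (z : DE) :
    MeasurableSet {p : XX | On (wl p) z ∧ yz p z ∈ A} := by
  have h2 : Measurable (fun p : XX => wl p (edg z.1 z.2)) :=
    (measurable_pi_apply _).comp measurable_wl
  exact (measurableSet_eq_fun h2 measurable_const).inter ((measurable_yz z) hA)

theorem card_HA (p : XX) (n : ℕ) (A : Set YY) : (((HA p n A).card : ℕ) : ℝ≥0∞) =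
    ∑ z ∈ box n ×ˢ (Finset.univ : Finset Dir),
      Set.indicator {p : XX | On (wl p) z ∧ yz p z ∈ A} 1 p := by
  classical
  unfold HA
  rw [Finset.card_filter]
  push_cast
  refine Finset.sum_congr rfl fun z _ => ?_
  by_cases h : On (wl p) z ∧ yz p z ∈ A
  · rw [if_pos h, Set.indicator_of_mem]
    · rfl
    · exact h
  · rw [if_neg h, Set.indicator_of_notMem]
    exact h

theorem lintegral_HA {Q : Measure XX} (hinv : ∀ u : Vx, MeasurePreserving (shX u) Q Q)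
    (n : ℕ) {A : Set YY} (hA : MeasurableSet A) :
    ((box n).card : ℝ≥0∞) * nuM Q A = ∫⁻ p, (((HA p n A).card : ℕ) : ℝ≥0∞) ∂Q := by
  rw [average' hinv hA]
  simp_rw [card_HA]
  rw [lintegral_finsetSum _ fun z _ => measurable_one.indicator (measurableSet_HAz hA z)]
  refine Finset.sum_congr rfl fun z _ => ?_
  rw [lintegral_indicator_one (measurableSet_HAz hA z)]

theorem card_HA_le (p : XX) (n : ℕ) (A : Set YY) : (HA p n A).card ≤ 4 * (2 * n + 1) ^ 2 := by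
  classical
  unfold HA
  refine (Finset.card_le_card (Finset.filter_subset _ _)).trans ?_
  rw [Finset.card_product, card_box, Finset.card_univ, Fintype.card_fin, mul_comm]

/-- what is needed about the law of the pairs of ground states -/
structure QLaw (μ : Measure ℝ) (Q : Measure XX) (c₁ c : ℕ) : Prop where
  inv : ∀ u : Vx, MeasurePreserving (shX u) Q Q
  fst_le : ∀ E : Set (Ed → ℝ), MeasurableSet E → Q (Prod.fst ⁻¹' E) ≤ c₁ * PP μ E
  gs : ∀ᵐ p ∂Q, ∀ C : Finset Ed, IsCyc C → 0 ≤ en (wt p.1) p.2.1 C ∧ 0 ≤ en (wt p.1) p.2.2 C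
  deg : ∀ᵐ p ∂Q, Deg2 (wl p)
  ac : ∀ᵐ p ∂Q, Ac (wl p)
  mpTh : MeasurePreserving Th (nuM Q) (nuM Q)
  good : ∀ K : ℝ, 0 ≤ K → μ {x | K < |x|} ≤ ENNReal.ofReal (1 / 16) → ∀ k L : ℕ, 1 ≤ L →
    ∀ Λ : ℝ, 0 < Λ → K ^ 2 * (1 + 8 * MM k) ≤ Λ ^ 2 →
      Q {p | ¬ (LG K L Λ p.1 p.2.1 ∧ LG K L Λ p.1 p.2.2)} ≤ ENNReal.ofReal
        (c₁ * (4 * c / (2 * L + 1) ^ 2 + (2 * (L + 1 : ℕ) + 1) ^ 2 * (8 * (1 / 4) ^ (k + 1))))

variable {μ : Measure ℝ} {Q : Measure XX} {c₁ c : ℕ}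

theorem QLaw.nu_large [IsProbabilityMeasure μ] (hQ : QLaw μ Q c₁ c)
    {K : ℝ} (hK : 0 ≤ K) (hp : μ {x | K < |x|} ≤ ENNReal.ofReal (1 / 16)) {k : ℕ}
    {n m : ℕ} (hn : 1 ≤ n) (hmn : m ≤ n) {Λ lam : ℝ} (hΛ : 0 < Λ) (hlam : 0 < lam)
    (hΛK : K ^ 2 * (1 + 8 * MM k) ≤ Λ ^ 2) :
    nuM Q (AA K m lam) ≤ ENNReal.ofReal
      (8 * n * NB (2 * n) Λ lam / (2 * n + 1) ^ 2 * c₁ +
        4 * c₁ * (4 * c / (2 * (2 * n : ℕ) + 1) ^ 2 +
          (2 * (2 * n + 1 : ℕ) + 1) ^ 2 * (8 * (1 / 4) ^ (k + 1)))) := by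
  classical
  set b : ℝ := 4 * c / (2 * (2 * n : ℕ) + 1) ^ 2 +
    (2 * (2 * n + 1 : ℕ) + 1) ^ 2 * (8 * (1 / 4) ^ (k + 1)) with hb
  have hb0 : 0 ≤ b := by positivity
  set d : ℝ := 8 * n * NB (2 * n) Λ lam with hd
  have hd0 : 0 ≤ d := by
    have := NB_nonneg (2 * n) (Λ := Λ) (lam := lam)
    positivity
  set B : Set XX := toMeasurable Q {p | ¬ (LG K (2 * n) Λ p.1 p.2.1 ∧ LG K (2 * n) Λ p.1 p.2.2)}
    with hB
  have hBm : MeasurableSet B := measurableSet_toMeasurable _ _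
  have hQB : Q B ≤ ENNReal.ofReal (c₁ * b) := by
    rw [hB, measure_toMeasurable]
    exact hQ.good K hK hp k (2 * n) (by omega) Λ hΛ hΛK
  have hQu : Q Set.univ ≤ ENNReal.ofReal c₁ := by
    have h1 := hQ.fst_le Set.univ MeasurableSet.univ
    rw [Set.preimage_univ, measure_univ (μ := PP μ), mul_one] at h1
    rwa [ENNReal.ofReal_natCast]
  have hpt : ∀ᵐ p ∂Q, (((HA p n (AA K m lam)).card : ℕ) : ℝ≥0∞) ≤
      ENNReal.ofReal d + B.indicator (fun _ => ENNReal.ofReal (4 * (2 * n + 1) ^ 2)) p := by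
    filter_upwards [hQ.gs, hQ.deg, hQ.ac] with p hgs hdeg hac
    by_cases hpB : p ∈ B
    · rw [Set.indicator_of_mem hpB]
      refine le_trans ?_ le_add_self
      rw [← ENNReal.ofReal_natCast]
      refine ENNReal.ofReal_le_ofReal ?_
      exact_mod_cast card_HA_le p n (AA K m lam)
    · have hnot : LG K (2 * n) Λ p.1 p.2.1 ∧ LG K (2 * n) Λ p.1 p.2.2 := by
        by_contra h
        exact hpB (subset_toMeasurable _ _ h)
      have h1 := count_abs2 hdeg hac (fun C hC => (hgs C hC).1) (fun C hC => (hgs C hC).2) hmn hΛ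
        hlam hnot.1 hnot.2
      refine le_trans ?_ le_self_add
      rw [← ENNReal.ofReal_natCast]
      exact ENNReal.ofReal_le_ofReal h1
  have h1 : ((box n).card : ℝ≥0∞) * nuM Q (AA K m lam) ≤
      ENNReal.ofReal (d * c₁ + 4 * (2 * n + 1) ^ 2 * (c₁ * b)) := by
    rw [lintegral_HA hQ.inv n (measurableSet_AA K m lam)]
    refine (lintegral_mono_ae hpt).trans ?_
    rw [lintegral_add_left measurable_const, lintegral_const, lintegral_indicator_const hBm,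
      ENNReal.ofReal_add (by positivity) (by positivity), ENNReal.ofReal_mul hd0,
      ENNReal.ofReal_mul (by positivity : (0:ℝ) ≤ 4 * (2 * n + 1) ^ 2)]
    exact add_le_add (mul_le_mul' le_rfl hQu) (mul_le_mul' le_rfl hQB)
  have hcard : ((box n).card : ℝ≥0∞) = ENNReal.ofReal ((2 * n + 1) ^ 2) := by
    rw [card_box, ← ENNReal.ofReal_natCast]; push_cast; rfl
  rw [hcard] at h1
  have hpos : (0:ℝ) < (2 * n + 1) ^ 2 := by positivity
  have h2 : d * c₁ + 4 * (2 * n + 1) ^ 2 * (c₁ * b) =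
      (2 * n + 1) ^ 2 * (d / (2 * n + 1) ^ 2 * c₁ + 4 * c₁ * b) := by
    field_simp
  rw [h2, ENNReal.ofReal_mul hpos.le] at h1
  exact (ENNReal.mul_le_mul_iff_right (ENNReal.ofReal_pos.2 hpos).ne' ENNReal.ofReal_ne_top).1 h1

/-! ### bad end points -/

theorem QLaw.nu_bad (hQ : QLaw μ Q c₁ c) (K : ℝ) :
    nuM Q {y | ¬ Gd K y.1.1 0} ≤ 4 * (c₁ * PP μ {J | ¬ Gd K J 0}) := by
  have hm : MeasurableSet {J : Ed → ℝ | ¬ Gd K J 0} := (measurableSet_Gd K 0).compl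
  have hm' : MeasurableSet {y : YY | ¬ Gd K y.1.1 0} := (measurable_fst.comp measurable_fst) hm
  rw [nuM_eq Q hm']
  refine (Finset.sum_le_card_nsmul _ _ (c₁ * PP μ {J | ¬ Gd K J 0}) fun d _ => ?_).trans ?_
  · refine le_trans (measure_mono ?_) (hQ.fst_le _ hm)
    rintro p ⟨_, hp⟩
    exact hp
  · rw [Finset.card_univ, Fintype.card_fin, nsmul_eq_mul]
    exact le_of_eq (by norm_num)

theorem QLaw.nu_bad' (hQ : QLaw μ Q c₁ c) (K : ℝ) (m : ℕ) :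
    nuM Q {y | ¬ Gd K y.1.1 (pos y m)} = nuM Q {y | ¬ Gd K y.1.1 0} := by
  have hm : MeasurableSet {y : YY | ¬ Gd K y.1.1 0} :=
    (measurable_fst.comp measurable_fst) (measurableSet_Gd K 0).compl
  rw [← (hQ.mpTh.iterate m).measure_preimage hm.nullMeasurableSet]
  congr 1
  ext y
  show ¬ _ ↔ ¬ Gd K (Th^[m] y).1.1 0
  rw [th_iterate_fst]
  show ¬ _ ↔ ¬ Gd K (sh (pos y m) y.1.1) 0
  rw [gd_sh, zero_add]

/-! ### the choice of the parameters -/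

/-- the size of the regions at distance `n` -/
def kk (n : ℕ) : ℕ := 2 * Nat.log 2 n + 1

theorem kk_pow {n : ℕ} (hn : 1 ≤ n) : ((1:ℝ) / 4) ^ (kk n + 1) ≤ ((n:ℝ) ^ 4)⁻¹ := by
  have h1 : n < 2 ^ (Nat.log 2 n + 1) := Nat.lt_pow_succ_log_self (by norm_num) n
  have h2 : (n:ℝ) ≤ 2 ^ (Nat.log 2 n + 1) := by exact_mod_cast h1.le
  have hn0 : (0:ℝ) < n := by exact_mod_cast hn
  have h3 : ((1:ℝ) / 4) ^ (kk n + 1) = (((2:ℝ) ^ (Nat.log 2 n + 1)) ^ 4)⁻¹ := by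
    have e1 : kk n + 1 = 2 * (Nat.log 2 n + 1) := by unfold kk; ring
    rw [e1, pow_mul, ← pow_mul, one_div, inv_pow, ← pow_mul]
    congr 1
    have e2 : (4:ℝ) = 2 ^ 2 := by norm_num
    rw [e2, ← pow_mul]
    congr 1
    ring
  rw [h3]
  exact inv_anti₀ (by positivity) (pow_le_pow_left₀ hn0.le h2 4)

theorem kk_log {n : ℕ} (hn : 1 ≤ n) : (Nat.log 2 n : ℝ) ≤ 2 * Real.log n := by
  have hn0 : (0:ℝ) < n := by exact_mod_cast hn
  have h1 : 2 ^ Nat.log 2 n ≤ n := Nat.pow_log_le_self 2 (by omega)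
  have h2 : ((2:ℝ)) ^ Nat.log 2 n ≤ n := by exact_mod_cast h1
  have h3 := Real.log_le_log (by positivity) h2
  rw [Real.log_pow] at h3
  have h4 : (1:ℝ) / 2 ≤ Real.log 2 := by
    have := Real.log_two_gt_d9
    linarith
  have h5 : (0:ℝ) ≤ (Nat.log 2 n : ℝ) := Nat.cast_nonneg _
  nlinarith

theorem mm_bound {n : ℕ} (hn : 1 ≤ n) :
    (1 + 8 * (MM (kk n) : ℝ)) ≤ 9 * 645 ^ 2 * (n:ℝ) ^ (1 / 40 : ℝ) := by
  have hn1 : (1:ℝ) ≤ n := by exact_mod_cast hn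
  have hn0 : (0:ℝ) < n := by linarith
  have h1 := kk_log hn
  have h2 : Real.log n ≤ (n:ℝ) ^ (1 / 80 : ℝ) / (1 / 80) :=
    Real.log_le_rpow_div hn0.le (by norm_num)
  have h3 : (1:ℝ) ≤ (n:ℝ) ^ (1 / 80 : ℝ) := Real.one_le_rpow hn1 (by norm_num)
  have h4 : (MM (kk n) : ℝ) = (4 * Nat.log 2 n + 5) ^ 2 := by
    unfold MM kk
    push_cast
    ring
  have h5 : (4 * (Nat.log 2 n : ℝ) + 5) ≤ 645 * (n:ℝ) ^ (1 / 80 : ℝ) := by
    have : Real.log n ≤ 80 * (n:ℝ) ^ (1 / 80 : ℝ) := by linarith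
    linarith
  have h6 : ((n:ℝ) ^ (1 / 80 : ℝ)) ^ 2 = (n:ℝ) ^ (1 / 40 : ℝ) := by
    rw [← Real.rpow_natCast, ← Real.rpow_mul hn0.le]
    norm_num
  have h7 : (4 * (Nat.log 2 n : ℝ) + 5) ^ 2 ≤ (645 * (n:ℝ) ^ (1 / 80 : ℝ)) ^ 2 :=
    pow_le_pow_left₀ (by positivity) h5 2
  rw [mul_pow, h6] at h7
  have h8 : (1:ℝ) ≤ (n:ℝ) ^ (1 / 40 : ℝ) := Real.one_le_rpow hn1 (by norm_num)
  rw [h4]
  nlinarith

/-- **The upper bound without moments.** -/
theorem QLaw.sub [IsProbabilityMeasure μ] (hQ : QLaw μ Q c₁ c) {δ : ℝ} (hδ : 0 < δ) :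
    ∃ n₁ : ℕ, ∀ n ≥ n₁, ∀ m ≤ n, (nuM Q).real {y | (n : ℝ) < |Vn m y| ^ 3} ≤ δ := by
  obtain ⟨K, hK0, hK1, hK2⟩ := prob_not_gd μ (δ := δ / (16 * (c₁ + 1))) (by positivity)
  have hbad : nuM Q {y | ¬ Gd K y.1.1 0} ≤ ENNReal.ofReal (δ / 4) := by
    refine (hQ.nu_bad K).trans ((mul_le_mul' le_rfl (mul_le_mul' le_rfl hK2)).trans ?_)
    have e1 : (4 : ℝ≥0∞) = ENNReal.ofReal 4 := by simp
    rw [← ENNReal.ofReal_natCast, ← ENNReal.ofReal_mul (Nat.cast_nonneg _), e1,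
      ← ENNReal.ofReal_mul (by norm_num)]
    refine ENNReal.ofReal_le_ofReal ?_
    have h1 : (4:ℝ) * (c₁ * (δ / (16 * (c₁ + 1)))) = δ / 4 * (c₁ / (c₁ + 1)) := by
      field_simp
      ring
    rw [h1]
    have h2 : (c₁:ℝ) / (c₁ + 1) ≤ 1 := by
      rw [div_le_one (by positivity)]
      linarith
    have h3 : 0 ≤ δ / 4 := by positivity
    nlinarith
  set C1 : ℝ := (8 * 108 ^ 2 * 4 * 5 ^ (2 * (7 / 120 : ℝ)) / (7 / 120 : ℝ) ^ 2) with hC1
  have hlim : Tendsto (fun n : ℕ => C1 * (n:ℝ) ^ (-(7 / 60 : ℝ)) * c₁ +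
      4 * c₁ * (4 * c * (n:ℝ) ^ (-1 : ℝ) + 392 * (n:ℝ) ^ (-2 : ℝ))) atTop (𝓝 0) := by
    have h1 : ∀ t : ℝ, 0 < t → Tendsto (fun n : ℕ => (n:ℝ) ^ (-t)) atTop (𝓝 0) := fun t ht =>
      (tendsto_rpow_neg_atTop ht).comp tendsto_natCast_atTop_atTop
    have h2 := (((h1 (7 / 60) (by norm_num)).const_mul C1).mul_const (c₁:ℝ)).add
      (((((h1 1 one_pos).const_mul (4 * (c:ℝ))).add
        ((h1 2 two_pos).const_mul (392 : ℝ)))).const_mul (4 * (c₁:ℝ)))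
    simpa using h2
  have hlim2 : ∀ᶠ n : ℕ in atTop, K ^ 2 * (9 * 645 ^ 2) ≤ (n:ℝ) ^ (1 / 40 : ℝ) :=
    ((tendsto_rpow_atTop (by norm_num)).comp tendsto_natCast_atTop_atTop).eventually_ge_atTop _
  obtain ⟨n₀, hn₀⟩ := eventually_atTop.1
    ((hlim.eventually_le_const (half_pos hδ)).and hlim2)
  refine ⟨max n₀ 1, fun n hn m hmn => ?_⟩
  have hn1 : 1 ≤ n := le_trans (le_max_right _ _) hn
  have hnR : (1:ℝ) ≤ n := by exact_mod_cast hn1
  have hn0 : (0:ℝ) < n := by linarith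
  obtain ⟨hn2, hn3⟩ := hn₀ n (le_trans (le_max_left _ _) hn)
  have hΛK : K ^ 2 * (1 + 8 * MM (kk n)) ≤ ((n:ℝ) ^ (1 / 40 : ℝ)) ^ 2 := by
    have h1 := mm_bound hn1
    have h2 : 0 ≤ (n:ℝ) ^ (1 / 40 : ℝ) := by positivity
    calc K ^ 2 * (1 + 8 * (MM (kk n) : ℝ)) ≤ K ^ 2 * (9 * 645 ^ 2 * (n:ℝ) ^ (1 / 40 : ℝ)) :=
          mul_le_mul_of_nonneg_left h1 (by positivity)
      _ = (K ^ 2 * (9 * 645 ^ 2)) * (n:ℝ) ^ (1 / 40 : ℝ) := by ring
      _ ≤ (n:ℝ) ^ (1 / 40 : ℝ) * (n:ℝ) ^ (1 / 40 : ℝ) := mul_le_mul_of_nonneg_right hn3 h2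
      _ = _ := by ring
  have hkey := hQ.nu_large hK0 hK1 (k := kk n) hn1 hmn (Λ := (n:ℝ) ^ (1 / 40 : ℝ))
    (lam := (n:ℝ) ^ (1 / 3 : ℝ)) (by positivity) (by positivity) hΛK
  have hsub : {y : YY | (n : ℝ) < |Vn m y| ^ 3} ⊆ AA K m ((n:ℝ) ^ (1 / 3 : ℝ)) ∪
      ({y | ¬ Gd K y.1.1 0} ∪ {y | ¬ Gd K y.1.1 (pos y m)}) := by
    intro y hy
    by_cases g1 : Gd K y.1.1 0
    · by_cases g2 : Gd K y.1.1 (pos y m)
      · left
        refine ⟨⟨g1, g2⟩, ?_⟩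
        by_contra hcon
        have hcon' : |Vn m y| < (n:ℝ) ^ (1 / 3 : ℝ) := not_le.1 hcon
        have h1 : |Vn m y| ^ 3 < ((n:ℝ) ^ (1 / 3 : ℝ)) ^ 3 :=
          pow_lt_pow_left₀ hcon' (abs_nonneg _) (by norm_num)
        have h2 : ((n:ℝ) ^ (1 / 3 : ℝ)) ^ 3 = n := by
          rw [← Real.rpow_natCast ((n:ℝ) ^ (1 / 3 : ℝ)) 3, ← Real.rpow_mul hn0.le]
          norm_num
        rw [h2] at h1
        exact absurd hy (not_lt.2 h1.le)
      · right; right; exact g2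
    · right; left; exact g1
  have hbd : nuM Q {y | (n : ℝ) < |Vn m y| ^ 3} ≤ ENNReal.ofReal δ := by
    refine (measure_mono hsub).trans ((measure_union_le _ _).trans
      ((add_le_add hkey (measure_union_le _ _)).trans ?_))
    rw [hQ.nu_bad']
    refine (add_le_add (ENNReal.ofReal_le_ofReal (?_ : _ ≤ δ / 2)) (add_le_add hbad hbad)).trans ?_
    · refine le_trans ?_ hn2
      have t1 := term_one (a := 1 / 40) (ε := 7 / 120) (s := 7 / 60) (by norm_num) (by norm_num) hn1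
      have t2 := term_two hn1 c
      have t3 : (2 * ((2 * n + 1 : ℕ) : ℝ) + 1) ^ 2 * (8 * (1 / 4) ^ (kk n + 1)) ≤
          392 * (n:ℝ) ^ (-2 : ℝ) := by
        have h1 := kk_pow hn1
        have h2 : (2 * ((2 * n + 1 : ℕ) : ℝ) + 1) ^ 2 ≤ 49 * (n:ℝ) ^ 2 := by
          push_cast
          nlinarith
        have h3 : (n:ℝ) ^ (-2 : ℝ) = ((n:ℝ) ^ 2)⁻¹ := by
          rw [Real.rpow_neg hn0.le, Real.rpow_two]
        rw [h3]
        calc (2 * ((2 * n + 1 : ℕ) : ℝ) + 1) ^ 2 * (8 * (1 / 4) ^ (kk n + 1))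
            ≤ (49 * (n:ℝ) ^ 2) * (8 * ((n:ℝ) ^ 4)⁻¹) := by
              refine mul_le_mul h2 ?_ (by positivity) (by positivity)
              exact mul_le_mul_of_nonneg_left h1 (by norm_num)
          _ = 392 * ((n:ℝ) ^ 2)⁻¹ := by
              field_simp
              ring
      refine add_le_add (mul_le_mul_of_nonneg_right t1 (by positivity)) ?_
      exact mul_le_mul_of_nonneg_left (add_le_add t2 t3) (by positivity)
    · rw [← ENNReal.ofReal_add (by positivity) (by positivity),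
        ← ENNReal.ofReal_add (by positivity) (by positivity)]
      refine ENNReal.ofReal_le_ofReal (le_of_eq ?_)
      ring
  rw [Measure.real]
  exact ENNReal.toReal_le_of_le_ofReal hδ.le hbd

end Pool.Agent.Helper59.UP
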