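import Pool.Agent.Helper59.UP.C

set_option autoImplicit false

/-!
# The upper bound without moments: finitely many ground states, and pairs of replicas
-/

namespace Pool.Agent.Helper59.UP

open Pool.Agent.Helper60.TJ Pool.Agent.Helper99.TJ Pool.Agent.Helper99.MS Pool.Agent.Helper59.TJ
open scoped symmDiff ENNReal
open MeasureTheory Filter Topology

theorem qlaw_isQ {μ : Measure ℝ} [IsProbabilityMeasure μ] (hsym : μ.map (fun x => -x) = μ)
    {k : ℕ} (hN : ∀ᵐ J ∂(PP μ), Nice k J) {Q : Measure XX} (hQ : IsQ μ k Q) :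
    QLaw μ Q (k * k) k := by
  have hnice : ∀ᵐ J ∂(PP μ), ∀ D : Finset Ed, Nice k (flp (ind D) J) :=
    ae_all_iff.2 fun D => ae_flp hsym (ind D) hN
  refine ⟨hQ.inv, fun E _ => hQ.fst_le E, ?_, deg_two hQ, ?_, mp_Th hQ, ?_⟩
  · filter_upwards [hQ.nice] with p hp C hC
    exact ⟨hp.2.1.2 C hC, hp.2.2.1.2 C hC⟩
  · filter_upwards [hQ.nice] with p hp C hC h
    exact acyc hp.2.1 hp.2.2.1 hp.1.nt hC h
  · intro K hK hp r L hL Λ hΛ hΛK
    have h1 := GJ_bad hsym hnice hK hp hL hΛ hΛK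
    rw [ENNReal.ofReal_mul (Nat.cast_nonneg _), ENNReal.ofReal_natCast]
    refine le_trans ?_ (mul_le_mul' le_rfl h1)
    refine le_trans (measure_mono_ae ?_) (hQ.fst_le _)
    filter_upwards [hQ.nice] with p hp hbad
    refine ⟨hp.1.nz, ?_⟩
    by_cases g : LG K L Λ p.1 p.2.1
    · refine ⟨p.2.2, hp.2.2.1, fun h => hbad ⟨g, h⟩⟩
    · exact ⟨p.2.1, hp.2.1, g⟩

/-- **Section 6, without moments.** -/
theorem sub_main {μ : Measure ℝ} [IsProbabilityMeasure μ] (hsym : μ.map (fun x => -x) = μ)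
    {k : ℕ} (hN : ∀ᵐ J ∂(PP μ), Nice k J) {Q : Measure XX} (hQ : IsQ μ k Q) {δ : ℝ} (hδ : 0 < δ) :
    ∃ n₁ : ℕ, ∀ n ≥ n₁, ∀ m ≤ n, (nuM Q).real {y | (n : ℝ) < |Vn m y| ^ 3} ≤ δ :=
  (qlaw_isQ hsym hN hQ).sub hδ

variable {μ : Measure ℝ} {Ω : Type*} [MeasurableSpace Ω] {P : Measure Ω} {J : Ω → Ed → ℝ}
  {U₁ U₂ : Ω → Ed → Bool} {h₁ h₂ : Ω → Finset Ed → ℝ}

theorem measurableSet_gs2 : MeasurableSet {p : XX | ∀ C : Finset Ed, IsCyc C →
    0 ≤ en (wt p.1) p.2.1 C ∧ 0 ≤ en (wt p.1) p.2.2 C} := by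
  refine measurableSet_setOf.2 (Measurable.forall fun C => Measurable.imp measurable_const ?_)
  have h1 : Measurable fun p : XX => en (wt p.1) p.2.1 C :=
    (continuous_en C).measurable.comp (measurable_fst.prodMk (measurable_fst.comp measurable_snd))
  have h2 : Measurable fun p : XX => en (wt p.1) p.2.2 C :=
    (continuous_en C).measurable.comp (measurable_fst.prodMk (measurable_snd.comp measurable_snd))
  exact Measurable.and (measurableSet_setOf.1 (measurableSet_le measurable_const h1))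
    (measurableSet_setOf.1 (measurableSet_le measurable_const h2))

theorem qlaw_pair [IsProbabilityMeasure P] [IsProbabilityMeasure μ] {Q : Measure XX}
    (hQ : PairLaw μ P J U₁ U₂ h₁ h₂ Q) (hTh : MeasurePreserving Th (nuM Q) (nuM Q)) :
    QLaw μ Q 2 1 := by
  set Φ : Ω → XX := fun ω => (J ω, U₁ ω, U₂ ω) with hΦ
  have hΦm : Measurable Φ := hQ.e₁.mJ.prodMk (hQ.mU₁.prodMk hQ.mU₂)
  refine ⟨hQ.inv, fun E hE => ?_, ?_, hQ.deg, hQ.ac, hTh, ?_⟩
  · refine (hQ.le _).trans ?_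
    rw [Measure.map_apply hΦm (measurable_fst hE)]
    have h1 : Φ ⁻¹' (Prod.fst ⁻¹' E) = J ⁻¹' E := rfl
    rw [h1, ← Measure.map_apply hQ.e₁.mJ hE, hQ.e₁.law]
    calc PP μ E = 1 * PP μ E := (one_mul _).symm
      _ ≤ ((2 : ℕ) : ℝ≥0∞) * PP μ E := mul_le_mul' (by norm_num) le_rfl
  · have h1 : ∀ᵐ p ∂(P.map Φ), ∀ C : Finset Ed, IsCyc C →
        0 ≤ en (wt p.1) p.2.1 C ∧ 0 ≤ en (wt p.1) p.2.2 C :=
      (ae_map_iff hΦm.aemeasurable measurableSet_gs2).2 hQ.gs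
    exact Measure.absolutelyContinuous_of_le hQ.le h1
  · intro K hK hp k L hL Λ hΛ hΛK
    have hm : MeasurableSet {p : XX | ¬ (LG K L Λ p.1 p.2.1 ∧ LG K L Λ p.1 p.2.2)} := by
      have h1 : Measurable fun p : XX => LG K L Λ p.1 p.2.1 :=
        (measurable_LG K L Λ).comp (measurable_fst.prodMk (measurable_fst.comp measurable_snd))
      have h2 : Measurable fun p : XX => LG K L Λ p.1 p.2.2 :=
        (measurable_LG K L Λ).comp (measurable_fst.prodMk (measurable_snd.comp measurable_snd))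
      exact measurableSet_setOf.2 (Measurable.and h1 h2).not
    refine (hQ.le _).trans ?_
    rw [Measure.map_apply hΦm hm]
    have h1 : Φ ⁻¹' {p : XX | ¬ (LG K L Λ p.1 p.2.1 ∧ LG K L Λ p.1 p.2.2)} ⊆
        {ω | ¬ LG K L Λ (J ω) (U₁ ω)} ∪ {ω | ¬ LG K L Λ (J ω) (U₂ ω)} := by
      intro ω hω
      by_contra h
      rw [Set.mem_union, not_or] at h
      exact hω ⟨not_not.1 h.1, not_not.1 h.2⟩
    have g₁ := EnS_bad hQ.e₁ hK hp hL hΛ hΛK
    have g₂ := EnS_bad hQ.e₂ hK hp hL hΛ hΛK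
    refine (measure_mono h1).trans ((measure_union_le _ _).trans ((add_le_add g₁ g₂).trans ?_))
    rw [← ENNReal.ofReal_add (by positivity) (by positivity)]
    refine ENNReal.ofReal_le_ofReal (le_of_eq ?_)
    push_cast
    ring

/-- **The upper bound, abstract form, without moments.** -/
theorem pair_sub [IsProbabilityMeasure P] [IsProbabilityMeasure μ] {Q : Measure XX}
    (hQ : PairLaw μ P J U₁ U₂ h₁ h₂ Q) (hTh : MeasurePreserving Th (nuM Q) (nuM Q))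
    {δ : ℝ} (hδ : 0 < δ) :
    ∃ n₁ : ℕ, ∀ n ≥ n₁, ∀ m ≤ n, (nuM Q).real {y | (n : ℝ) < |Vn m y| ^ 3} ≤ δ :=
  (qlaw_pair hQ hTh).sub hδ

end Pool.Agent.Helper59.UP
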