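import Pool.Agent.Helper59.UP.D
import Pool.Agent.Helper99.MS.SubM

set_option autoImplicit false

/-!
# The upper bound for the wall energies of replica pairs, without moments
-/

namespace Pool.Agent.Helper59.UP

open MeasureTheory ProbabilityTheory Filter Topology Pool.Agent.Helper60.TJ
open Pool.Agent.Helper61.MM Pool.Agent.Helper5.MM Pool.Agent.Helper99.MS
open scoped symmDiff

/-- **The upper bound**, from the structure of the walls. -/
theorem sub_of {lam : Measure ℝ} {κ : Kernel WT Rs} {R : Measure Om} (hl : Wgt lam)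
    (hR : IsR lam κ R)
    (hdeg : ∀ᵐ p ∂(QQ R), Deg2 (wl p))
    (hac : ∀ᵐ p ∂(QQ R), ∀ C : Finset Ed, IsCyc C → (∀ e ∈ C, wl p e = true) → C = ∅)
    (hTh : MeasurePreserving Th (nuM (QQ R)) (nuM (QQ R))) :
    SubD (QQ R) := by
  have := hl.prob
  have := hR.prob
  have hP : PairLaw lam R (fun z => ww g0 z.1) (fun z => uu (rp z 0) g0)
      (fun z => uu (rp z 1) g0) (fun z D => hh (rp z 0) g0 D) (fun z D => hh (rp z 1) g0 D)
      (QQ R) := by
    refine ⟨enS hl hR 0, enS hl hR 1, (meas_uu g0).comp (meas_rp 0),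
      (meas_uu g0).comp (meas_rp 1), inv_QQ hR, ?_, ?_, hdeg, hac⟩
    · exact Measure.map_mono Measure.restrict_le_self (meas_pr 0 1 g0)
    · filter_upwards [hR.ok] with z h C hC
      rw [wt_of_pos ((h 0).ww_pos g0)]
      exact ⟨((h 0).mem g0).2 C hC, ((h 1).mem g0).2 C hC⟩
  exact fun δ hδ => pair_sub hP hTh hδ

end Pool.Agent.Helper59.UP
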